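import Pool.Agent.Helper60K9.EL.Stm

/-! Leaf FRA (helper86): Frobenius is algebraic -/

set_option autoImplicit false

open CategoryTheory Polynomial

universe u

namespace Pool.Agent.Helper86K9.EL

open Pool.Agent.H914 Pool.Agent.H914.VarClass Pool.Agent.H914.VarClass.Obj
  Pool.Agent.H914.WeilCohomology Pool.Agent.Helper7K9.OL Pool.Agent.Helper11K9.Dens
  Pool.Agent.Helper60K9.EL

namespace FraL

variable {k : Type u} [Field k] {𝒱 : VarClass k} {ops : CycleOps 𝒱} {d : ℕ}

/-- the block of Frobenius which goes to the stratum `x` -/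
noncomputable def blk (W : WeilCohomology.{u, 0} ops) (D : Strata 𝒱 d) [DecidableEq (Str D)]
    (A : FrobAction D) (x : Str D) : Module.End W.K (Sm W (strY D)) :=
  LinearMap.single W.K (fun y => W.H (strY D y)) x ∘ₗ (W.map (A.fr x.1 x.2)).toLinearMap ∘ₗ
    LinearMap.proj (⟨x.1, A.perm x.1 x.2⟩ : Str D)

theorem blk_apply (W : WeilCohomology.{u, 0} ops) (D : Strata 𝒱 d) [DecidableEq (Str D)]
    (A : FrobAction D)
    (x : Str D) (f : Tot W D) :
    blk W D A x (cur W D f) = Pi.single x (W.map (A.fr x.1 x.2) (f x.1 (A.perm x.1 x.2))) := rfl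

theorem blk_mem (hP : S_PUL.{u}) (D : Strata 𝒱 d) [Finite (Str D)] [DecidableEq (Str D)]
    (A : FrobAction D) {Λ : Type}
    (W : Λ → WeilCohomology.{u, 0} ops) (x : Str D) :
    (fun l => blk (W l) D A x) ∈ algFam W (strY D) :=
  (hP W (strY D) x (⟨x.1, A.perm x.1 x.2⟩ : Str D) (A.fr x.1 x.2)).1

/-- combinations of blocks with rational coefficients -/
theorem comb (hP : S_PUL.{u}) (hR : S_RSM.{u}) (D : Strata 𝒱 d) [Finite (Str D)]
    (A : FrobAction D) {Λ : Type} (W : Λ → WeilCohomology.{u, 0} ops) (c : Str D → ℚ) :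
    ∃ T ∈ algFam W (strY D), ∀ l f (x : Str D), T l (cur (W l) D f) x =
      (c x : (W l).K) • (W l).map (A.fr x.1 x.2) (f x.1 (A.perm x.1 x.2)) := by
  classical
  have : Fintype (Str D) := Fintype.ofFinite _
  refine ⟨∑ x : Str D, (fun l => (c x : (W l).K) • blk (W l) D A x), ?_, fun l f y => ?_⟩
  · exact AddSubgroup.sum_mem _ fun x _ => hR W (strY D) (c x) _ (blk_mem hP D A W x)
  · rw [Finset.sum_apply, LinearMap.sum_apply, Finset.sum_apply]
    rw [Finset.sum_eq_single y]
    · rw [LinearMap.smul_apply, blk_apply, Pi.smul_apply]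
      congr 1
      exact Pi.single_eq_same (M := fun y => (W l).H (strY D y)) y _
    · intro x _ hxy
      rw [LinearMap.smul_apply, blk_apply, Pi.smul_apply]
      have : (Pi.single x ((W l).map (A.fr x.1 x.2) (f x.1 (A.perm x.1 x.2))) :
          ∀ y, (W l).H (strY D y)) y = 0 := Pi.single_eq_of_ne (Ne.symm hxy) _
      rw [this, smul_zero]
    · exact fun h => absurd (Finset.mem_univ y) h

end FraL

open FraL

theorem fra : S_RSM.{u} → S_PUL.{u} → S_FRA.{u} := by
  classical
  intro hR hP k _ 𝒱 ops d D _ A Λ W r i b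
  constructor
  · obtain ⟨T, hT, h⟩ := comb hP hR D A W (fun x =>
      ((r : ℚ) ^ (((x.1 : ℤ) + b - i) / 2).toNat * (-1) ^ A.sg x.1 x.2))
    refine ⟨T, hT, fun l f => ?_⟩
    funext x
    rw [h l f x]
    push_cast
    rw [mul_smul]
    rfl
  · intro p
    obtain ⟨T, hT, h⟩ := comb hP hR D A W (fun x => if x.1 = p then (-1) ^ A.sg x.1 x.2 else 0)
    refine ⟨T, hT, fun l f => ?_⟩
    funext x
    rw [h l f x]
    obtain ⟨q, s⟩ := x
    by_cases hq : q = p
    · subst hq
      have h2 : (cur (W l) D (Pi.single q (phi (W l) D A q (f q)))) ⟨q, s⟩ =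
          phi (W l) D A q (f q) s := by
        show (Pi.single q (phi (W l) D A q (f q)) : Tot (W l) D) q s = _
        rw [Pi.single_eq_same]
      rw [h2]
      simp only [if_true]
      push_cast
      rfl
    · have h2 : (cur (W l) D (Pi.single p (phi (W l) D A p (f p)))) ⟨q, s⟩ = 0 := by
        show (Pi.single p (phi (W l) D A p (f p)) : Tot (W l) D) q s = _
        rw [Pi.single_eq_of_ne hq]
        rfl
      rw [h2]
      simp only [if_neg hq, Rat.cast_zero, zero_smul]

end Pool.Agent.Helper86K9.EL
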